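import Pool.Agent.W544.FF.Defs
import Pool.Agent.W21.TP.HCK

/-!
# FF-HDK: forms over a subfield, any quadratic form, all degrees
-/

set_option autoImplicit false

open Matrix Finset Module

namespace Pool.Agent.W125.FF.HDK

open Pool.Agent.W544.PG Pool.Agent.W557.PG Pool.Agent.W544.FF Pool.Agent.W21.TP

noncomputable section

variable {n r s m : ℕ}

/-- the pairs -/
def pr {K : Type} [Field K] (Q : Matrix (Fin n) (Fin n) K) (c : Fin n → Fin r)
    (d : Fin s → Fin r) (a : Fin m → Fin r) (σ : Fin m → Fin m) (J : Fin m → Fin s ⊕ Fin n) : K :=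
  ∏ j with j < σ j,
    if Sum.elim d c (J j) = a j then Matrix.fromBlocks 0 0 0 Q (J j) (J (σ j)) else 0

/-- the generators of `algD` -/
def genD {K : Type} [Field K] (Q : Matrix (Fin n) (Fin n) K) (c : Fin n → Fin r)
    (d : Fin s → Fin r) (a : Fin m → Fin r) (σ : Fin m → Fin m) (ν : Fin m → Fin s → K)
    (S : Finset (Fin r)) (g : {b : Fin n // c b ∈ S} → Fin m) (J : Fin m → Fin s ⊕ Fin n) : K :=
  (∏ j with σ j = j ∧ ∀ b, g b ≠ j, Sum.elim (ν j) (fun _ => 0) (J j)) *
      (∏ j with j < σ j,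
        if Sum.elim d c (J j) = a j then Matrix.fromBlocks 0 0 0 Q (J j) (J (σ j)) else 0) *
      dt c S Sum.inr g J

theorem pull_pr {c : Fin n → Fin r} (d : Fin s → Fin r) (a : Fin m → Fin r)
    {P : Matrix (Fin n) (Fin n) ℂ} (hP : BD c P) (σ : Fin m → Fin m) (hσ : ∀ j, σ (σ j) = j)
    (F : Fin m → Fin s ⊕ Fin n → ℂ) :
    pull (fromBlocks 1 0 0 P) (fun J => (∏ j with σ j = j, F j (J j)) *
      pr (1 : Matrix (Fin n) (Fin n) ℂ) c d a σ J) =
      fun J => (∏ j with σ j = j, ∑ x, (fromBlocks 1 0 0 P : Matrix (Fin s ⊕ Fin n)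
        (Fin s ⊕ Fin n) ℂ) x (J j) * F j x) * pr (Pᵀ * P) c d a σ J := by
  funext J
  set V : Matrix (Fin s ⊕ Fin n) (Fin s ⊕ Fin n) ℂ := fromBlocks 1 0 0 P with hV
  unfold pull pr
  have h1 : ∀ K : Fin m → Fin s ⊕ Fin n, (∏ j, V (K j) (J j)) *
      ((∏ j with σ j = j, F j (K j)) * ∏ j with j < σ j,
        if Sum.elim d c (K j) = a j then
          Matrix.fromBlocks 0 0 0 (1 : Matrix (Fin n) (Fin n) ℂ) (K j) (K (σ j)) else 0) =
      (∏ j with σ j = j, (fun (j : Fin m) (x : Fin s ⊕ Fin n) =>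
        V x (J j) * F j x) j (K j)) *
      ∏ j with j < σ j, (fun (j : Fin m) (x y : Fin s ⊕ Fin n) =>
        V x (J j) * V y (J (σ j)) * if Sum.elim d c x = a j then
          Matrix.fromBlocks 0 0 0 (1 : Matrix (Fin n) (Fin n) ℂ) x y else 0) j (K j) (K (σ j)) := by
    intro K
    rw [prod_split σ hσ (fun j => V (K j) (J j))]
    simp only [Finset.prod_mul_distrib]
    ring
  refine (Finset.sum_congr rfl fun K _ => h1 K).trans ((fub σ hσ
    (fun (j : Fin m) (x : Fin s ⊕ Fin n) => V x (J j) * F j x)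
    (fun (j : Fin m) (x y : Fin s ⊕ Fin n) =>
        V x (J j) * V y (J (σ j)) * if Sum.elim d c x = a j then
          Matrix.fromBlocks 0 0 0 (1 : Matrix (Fin n) (Fin n) ℂ) x y else 0)).trans ?_)
  congr 1
  refine Finset.prod_congr rfl fun j _ => ?_
  have h2 : ∀ x y : Fin s ⊕ Fin n, V x (J j) * V y (J (σ j)) * (if Sum.elim d c x = a j then
        Matrix.fromBlocks 0 0 0 (1 : Matrix (Fin n) (Fin n) ℂ) x y else 0) =
      if Sum.elim d c (J j) = a j then V x (J j) * V y (J (σ j)) *
        Matrix.fromBlocks 0 0 0 (1 : Matrix (Fin n) (Fin n) ℂ) x y else 0 := by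
    intro x y
    by_cases hx : V x (J j) = 0
    · rw [hx]
      simp
    · rw [(block_ne d hP x (J j) hx).1]
      by_cases h : Sum.elim d c (J j) = a j
      · rw [if_pos h, if_pos h]
      · rw [if_neg h, if_neg h, mul_zero]
  simp only [h2]
  by_cases h : Sum.elim d c (J j) = a j
  · simp only [if_pos h]
    have h3 : Matrix.fromBlocks 0 0 0 (Pᵀ * P) =
        Vᵀ * Matrix.fromBlocks 0 0 0 (1 : Matrix (Fin n) (Fin n) ℂ) * V := by
      rw [hV, Matrix.fromBlocks_transpose, Matrix.fromBlocks_multiply,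
        Matrix.fromBlocks_multiply]
      simp
    have h3' : (Matrix.fromBlocks 0 0 0 (Pᵀ * P) : Matrix (Fin s ⊕ Fin n) (Fin s ⊕ Fin n) ℂ)
        (J j) (J (σ j)) = (Vᵀ * Matrix.fromBlocks 0 0 0 (1 : Matrix (Fin n) (Fin n) ℂ) * V :
          Matrix (Fin s ⊕ Fin n) (Fin s ⊕ Fin n) ℂ) (J j) (J (σ j)) :=
      congrFun (congrFun h3 _) _
    rw [h3', Matrix.mul_apply]
    simp only [Matrix.mul_apply, Matrix.transpose_apply, Finset.sum_mul]
    rw [Finset.sum_comm]
    refine Finset.sum_congr rfl fun x _ => Finset.sum_congr rfl fun y _ => ?_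
    ring
  · simp only [if_neg h, Finset.sum_const_zero]

/-- functions of the fixed slots -/
def slotF {B X K : Type} [Fintype B] [CommRing K] (f : Fin m → X → K) (g : B → Fin m)
    (M : B → X → K) (j : Fin m) (x : X) : K := by
  classical
  exact (if ∃ b, g b = j then 1 else f j x) * ∏ b with g b = j, M b x

theorem slot_prod {B X K : Type} [Fintype B] [CommRing K] (f : Fin m → X → K) (g : B → Fin m)
    (M : B → X → K) (σ : Fin m → Fin m) (hg : ∀ b, σ (g b) = g b) [DecidablePred fun j =>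
      σ j = j ∧ ∀ b, g b ≠ j] (J : Fin m → X) :
    ∏ j with σ j = j, slotF f g M j (J j) =
      (∏ j with σ j = j ∧ ∀ b, g b ≠ j, f j (J j)) * ∏ b, M b (J (g b)) := by
  classical
  unfold slotF
  rw [Finset.prod_mul_distrib]
  congr 1
  · rw [Finset.prod_filter, Finset.prod_filter]
    refine Finset.prod_congr rfl fun j _ => ?_
    by_cases h1 : σ j = j
    · by_cases h2 : ∃ b, g b = j
      · rw [if_pos h1, if_pos h2, if_neg]
        rintro ⟨_, h3⟩
        obtain ⟨b, hb⟩ := h2
        exact h3 b hb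
      · rw [if_pos h1, if_neg h2, if_pos]
        refine ⟨h1, fun b hb => h2 ⟨b, hb⟩⟩
    · rw [if_neg h1, if_neg (fun h => h1 h.1)]
  · have h1 : ∀ j ∈ univ.filter (fun j => σ j = j), ∏ b with g b = j, M b (J j) =
        ∏ b with g b = j, M b (J (g b)) := by
      intro j _
      refine Finset.prod_congr rfl fun b hb => ?_
      rw [(mem_filter.1 hb).2]
    rw [Finset.prod_congr rfl h1]
    exact Finset.prod_fiberwise_of_maps_to (s := (univ : Finset B)) (t := univ.filter fun j =>
      σ j = j) (g := g) (fun b _ => by simp [hg b]) (fun b => M b (J (g b)))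

theorem slot_pull {B : Type} [Fintype B] (ν : Fin m → Fin s → ℂ) (g : B → Fin m)
    (hg : Function.Injective g) (M : B → Fin s ⊕ Fin n → ℂ) (P : Matrix (Fin n) (Fin n) ℂ)
    (j : Fin m) (x : Fin s ⊕ Fin n) :
    ∑ x', (fromBlocks 1 0 0 P : Matrix (Fin s ⊕ Fin n) (Fin s ⊕ Fin n) ℂ) x' x *
      slotF (fun j => Sum.elim (ν j) (fun _ => 0)) g M j x' =
      slotF (fun j => Sum.elim (ν j) (fun _ => 0)) g (fun b x => ∑ x',
        (fromBlocks 1 0 0 P : Matrix (Fin s ⊕ Fin n) (Fin s ⊕ Fin n) ℂ) x' x * M b x') j x := by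
  classical
  unfold slotF
  by_cases h : ∃ b, g b = j
  · obtain ⟨b, hb⟩ := h
    have h1 : (univ.filter fun b' => g b' = j) = {b} := by
      ext b'
      simp only [mem_filter, mem_univ, true_and, mem_singleton]
      constructor
      · intro h
        exact hg (h.trans hb.symm)
      · rintro rfl
        exact hb
    simp only [if_pos (show ∃ b, g b = j from ⟨b, hb⟩), h1, Finset.prod_singleton, one_mul]
  · have h1 : (univ.filter fun b' => g b' = j) = ∅ := by
      ext b'
      simp only [mem_filter, mem_univ, true_and, notMem_empty, iff_false]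
      exact fun h' => h ⟨b', h'⟩
    simp only [if_neg h, h1, Finset.prod_empty, mul_one]
    rw [Fintype.sum_sum_type]
    simp only [Sum.elim_inl, Sum.elim_inr, mul_zero, Finset.sum_const_zero, add_zero]
    rcases x with b | e
    · simp [Matrix.one_apply]
    · simp

/-- the factors of the determinant -/
def MT {K : Type} [CommRing K] (c : Fin n → Fin r) (S : Finset (Fin r))
    (τ : Equiv.Perm {b : Fin n // c b ∈ S}) (b : {b : Fin n // c b ∈ S})
    (x : Fin s ⊕ Fin n) : K :=
  if c (τ b).1 = c b.1 ∧ x = Sum.inr (τ b).1 then 1 else 0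

theorem det_exp {B K : Type} [Fintype B] [DecidableEq B] [CommRing K] (M : Matrix B B K) :
    M.det = ∑ τ : Equiv.Perm B, ((Equiv.Perm.sign τ : ℤ) : K) * ∏ b, M b (τ b) := by
  rw [← Matrix.det_transpose, Matrix.det_apply']
  rfl

theorem genD_exp (Q : Matrix (Fin n) (Fin n) ℂ) (c : Fin n → Fin r)
    (d : Fin s → Fin r) (a : Fin m → Fin r) (σ : Fin m → Fin m) (ν : Fin m → Fin s → ℂ)
    (S : Finset (Fin r)) (g : {b : Fin n // c b ∈ S} → Fin m) (hg : ∀ b, σ (g b) = g b)
    (J : Fin m → Fin s ⊕ Fin n) : genD Q c d a σ ν S g J =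
      ∑ τ : Equiv.Perm {b : Fin n // c b ∈ S}, ((Equiv.Perm.sign τ : ℤ) : ℂ) *
        ((∏ j with σ j = j, slotF (fun j => Sum.elim (ν j) (fun _ => 0)) g (MT c S τ) j (J j)) *
          pr Q c d a σ J) := by
  unfold genD dt
  rw [det_exp, Finset.mul_sum]
  refine Finset.sum_congr rfl fun τ _ => ?_
  rw [slot_prod _ g _ σ hg]
  unfold pr MT
  simp only [Matrix.of_apply]
  ring

theorem pull_genD {c : Fin n → Fin r} (d : Fin s → Fin r) (a : Fin m → Fin r)
    {P : Matrix (Fin n) (Fin n) ℂ} (hP : BD c P) (σ : Fin m → Fin m) (hσ : ∀ j, σ (σ j) = j)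
    (ν : Fin m → Fin s → ℂ) (S : Finset (Fin r)) (g : {b : Fin n // c b ∈ S} → Fin m)
    (hg : Function.Injective g) (hgσ : ∀ b, σ (g b) = g b) :
    pull (fromBlocks 1 0 0 P) (genD (1 : Matrix (Fin n) (Fin n) ℂ) c d a σ ν S g) =
      (P.submatrix (fun b : {b : Fin n // c b ∈ S} => b.1) (fun b => b.1)).det •
        genD (Pᵀ * P) c d a σ ν S g := by
  have h0 : genD (1 : Matrix (Fin n) (Fin n) ℂ) c d a σ ν S g = fun J =>
      ∑ τ : Equiv.Perm {b : Fin n // c b ∈ S}, ((Equiv.Perm.sign τ : ℤ) : ℂ) *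
        ((∏ j with σ j = j, slotF (fun j => Sum.elim (ν j) (fun _ => 0)) g (MT c S τ) j (J j)) *
          pr 1 c d a σ J) := by
    funext J
    exact genD_exp 1 c d a σ ν S g hgσ J
  have h1 : pull (fromBlocks 1 0 0 P) (genD (1 : Matrix (Fin n) (Fin n) ℂ) c d a σ ν S g) =
      fun J => ∑ τ : Equiv.Perm {b : Fin n // c b ∈ S}, ((Equiv.Perm.sign τ : ℤ) : ℂ) *
        pull (fromBlocks 1 0 0 P) (fun J =>
          (∏ j with σ j = j, slotF (fun j => Sum.elim (ν j) (fun _ => 0)) g (MT c S τ) j (J j)) *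
          pr 1 c d a σ J) J := by
    rw [h0]
    funext J
    unfold pull
    simp only [Finset.mul_sum]
    rw [Finset.sum_comm]
    refine Finset.sum_congr rfl fun τ _ => Finset.sum_congr rfl fun K _ => ?_
    ring
  rw [h1]
  funext J
  have h2 : ∀ τ : Equiv.Perm {b : Fin n // c b ∈ S}, pull (fromBlocks 1 0 0 P) (fun J =>
          (∏ j with σ j = j, slotF (fun j => Sum.elim (ν j) (fun _ => 0)) g (MT c S τ) j (J j)) *
          pr 1 c d a σ J) J =
      (∏ j with σ j = j ∧ ∀ b, g b ≠ j, Sum.elim (ν j) (fun _ => 0) (J j)) *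
        (∏ b : {b : Fin n // c b ∈ S}, if c (τ b).1 = c b.1 then
          (fromBlocks 1 0 0 P : Matrix (Fin s ⊕ Fin n) (Fin s ⊕ Fin n) ℂ) (Sum.inr (τ b).1)
            (J (g b)) else 0) * pr (Pᵀ * P) c d a σ J := by
    intro τ
    rw [pull_pr d a hP σ hσ]
    simp only
    have h3 : ∀ j, ∑ x, (fromBlocks 1 0 0 P : Matrix (Fin s ⊕ Fin n) (Fin s ⊕ Fin n) ℂ) x (J j) *
        slotF (fun j => Sum.elim (ν j) (fun _ => 0)) g (MT c S τ) j x = _ := fun j =>
      slot_pull ν g hg (MT c S τ) P j (J j)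
    rw [Finset.prod_congr rfl fun j _ => h3 j, slot_prod _ g _ σ hgσ]
    congr 2
    refine Finset.prod_congr rfl fun b _ => ?_
    unfold MT
    by_cases h : c (τ b).1 = c b.1
    · simp only [h, true_and, if_true, mul_ite, mul_one, mul_zero, Finset.sum_ite_eq',
        Finset.mem_univ]
    · simp only [h, false_and, if_false, mul_zero, Finset.sum_const_zero]
  simp only [h2, Pi.smul_apply, smul_eq_mul]
  have h4 : ∑ τ : Equiv.Perm {b : Fin n // c b ∈ S}, ((Equiv.Perm.sign τ : ℤ) : ℂ) *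
      (∏ b : {b : Fin n // c b ∈ S}, if c (τ b).1 = c b.1 then
          (fromBlocks 1 0 0 P : Matrix (Fin s ⊕ Fin n) (Fin s ⊕ Fin n) ℂ) (Sum.inr (τ b).1)
            (J (g b)) else 0) = (dt c S Sum.inr g J : ℂ) *
        (P.submatrix (fun b : {b : Fin n // c b ∈ S} => b.1) (fun b => b.1)).det := by
    have h5 := det_exp (Matrix.of fun x y : {b : Fin n // c b ∈ S} => if c y.1 = c x.1 then
          (fromBlocks 1 0 0 P : Matrix (Fin s ⊕ Fin n) (Fin s ⊕ Fin n) ℂ) (Sum.inr y.1)
            (J (g x)) else 0)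
    simp only [Matrix.of_apply] at h5
    rw [← h5, ← Matrix.det_transpose (P.submatrix _ _)]
    unfold dt
    rw [← Matrix.det_mul]
    congr 1
    ext x y
    rw [Matrix.mul_apply]
    simp only [Matrix.of_apply, Matrix.transpose_apply, Matrix.submatrix_apply]
    rcases hJ : J (g x) with b | w
    · simp
    · simp only [Matrix.fromBlocks_apply₂₂, Sum.inr.injEq, ite_mul, one_mul, zero_mul]
      by_cases hw : c w = c x.1
      · have hwS : c w ∈ S := by rw [hw]; exact x.2
        rw [Finset.sum_eq_single (⟨w, hwS⟩ : {b : Fin n // c b ∈ S})]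
        · simp only [hw, true_and, if_true]
          by_cases hy : c y.1 = c x.1
          · rw [if_pos hy]
          · rw [if_neg hy]
            exact (hP _ _ (fun h => hy (h.trans hw))).symm
        · intro z _ hz
          rw [if_neg]
          rintro ⟨_, h⟩
          exact hz (Subtype.ext h.symm)
        · intro h
          exact absurd (Finset.mem_univ _) h
      · rw [Finset.sum_eq_zero]
        · by_cases hy : c y.1 = c x.1
          · rw [if_pos hy]
            exact hP _ _ (fun h => hw (h.symm.trans hy))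
          · rw [if_neg hy]
        · intro z _
          rw [if_neg]
          rintro ⟨h, rfl⟩
          exact hw h
  have h6 : genD (Pᵀ * P) c d a σ ν S g J =
      (∏ j with σ j = j ∧ ∀ b, g b ≠ j, Sum.elim (ν j) (fun _ => 0) (J j)) *
        pr (Pᵀ * P) c d a σ J * dt c S Sum.inr g J := rfl
  rw [h6]
  calc _ = (∏ j with σ j = j ∧ ∀ b, g b ≠ j, Sum.elim (ν j) (fun _ => 0) (J j)) *
      (∑ τ : Equiv.Perm {b : Fin n // c b ∈ S}, ((Equiv.Perm.sign τ : ℤ) : ℂ) *
      (∏ b : {b : Fin n // c b ∈ S}, if c (τ b).1 = c b.1 then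
          (fromBlocks 1 0 0 P : Matrix (Fin s ⊕ Fin n) (Fin s ⊕ Fin n) ℂ) (Sum.inr (τ b).1)
            (J (g b)) else 0)) * pr (Pᵀ * P) c d a σ J := by
        rw [Finset.mul_sum, Finset.sum_mul]
        refine Finset.sum_congr rfl fun τ _ => ?_
        ring
    _ = _ := by
        rw [h4]
        ring

theorem dt_map {K : Type} [Field K] (ι : K →+* ℂ) (c : Fin n → Fin r) (S : Finset (Fin r))
    (g : {b : Fin n // c b ∈ S} → Fin m) (J : Fin m → Fin s ⊕ Fin n) :
    ι (dt c S Sum.inr g J) = dt c S Sum.inr g J := by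
  unfold dt
  rw [RingHom.map_det]
  congr 1
  ext x y
  simp only [RingHom.mapMatrix_apply, Matrix.map_apply, Matrix.of_apply]
  split_ifs
  · exact map_one ι
  · exact map_zero ι

theorem genD_mem {K : Type} [Field K] (ι : K →+* ℂ) (Q : Matrix (Fin n) (Fin n) K)
    (c : Fin n → Fin r) (d : Fin s → Fin r) (a : Fin m → Fin r) (σ : Fin m → Fin m)
    (hσ : ∀ j, σ (σ j) = j) (haσ : ∀ j, a (σ j) = a j) (ν : Fin m → Fin s → ℂ)
    (hν : ∀ j b, ν j b ≠ 0 → d b = a j) (S : Finset (Fin r))
    (g : {b : Fin n // c b ∈ S} → Fin m) (hg : Function.Injective g) (hgσ : ∀ b, σ (g b) = g b)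
    (hga : ∀ b, a (g b) = c b.1) :
    genD (Q.map ι) c d a σ ν S g ∈ Submodule.span ℂ {u : (Fin m → Fin s ⊕ Fin n) → ℂ |
      ∃ w ∈ {t : (Fin m → Fin s ⊕ Fin n) → K | ∃ (σ : Fin m → Fin m) (ν : Fin m → Fin s → K)
        (S : Finset (Fin r)) (g : {b : Fin n // c b ∈ S} → Fin m), (∀ j, σ (σ j) = j) ∧
        (∀ j, a (σ j) = a j) ∧
        (∀ j b, ν j b ≠ 0 → d b = a j) ∧ Function.Injective g ∧ (∀ b, σ (g b) = g b) ∧
        (∀ b, a (g b) = c b.1) ∧
        ∀ J, t J = (∏ j with σ j = j ∧ ∀ b, g b ≠ j, Sum.elim (ν j) (fun _ => 0) (J j)) *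
          (∏ j with j < σ j,
            if Sum.elim d c (J j) = a j then Matrix.fromBlocks 0 0 0 Q (J j) (J (σ j)) else 0) *
          dt c S Sum.inr g J}, u = fun x => ι (w x)} := by
  classical
  let Fx : Fin m → Prop := fun j => σ j = j ∧ ∀ b, g b ≠ j
  let coef : Fin m → Option (Fin s) → ℂ := fun j y =>
    match y with
    | some b => if Fx j then ν j b else 0
    | none => if Fx j then 0 else 1
  let val : Fin m → Option (Fin s) → Fin s ⊕ Fin n → ℂ := fun _ y x =>
    match y with
    | some b => if x = Sum.inl b then 1 else 0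
    | none => 1
  let νη : (Fin m → Option (Fin s)) → Fin m → Fin s → K := fun η j b =>
    if η j = some b then 1 else 0
  have hsum : ∀ (j : Fin m) (x : Fin s ⊕ Fin n), ∑ y, coef j y * val j y x =
      if Fx j then Sum.elim (ν j) (fun _ => 0) x else 1 := by
    intro j x
    rw [Fintype.sum_option]
    by_cases h : Fx j
    · simp only [coef, val, h, if_true]
      rcases x with x | x
      · simp
      · simp
    · simp [coef, val, h]
  have hexp : genD (Q.map ι) c d a σ ν S g = ∑ η : Fin m → Option (Fin s),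
      (∏ j, coef j (η j)) • fun J => (∏ j, val j (η j) (J j)) * (∏ j with j < σ j,
        if Sum.elim d c (J j) = a j then
          Matrix.fromBlocks 0 0 0 (Q.map ι) (J j) (J (σ j)) else 0) * dt c S Sum.inr g J := by
    funext J
    rw [Finset.sum_apply]
    simp only [Pi.smul_apply, smul_eq_mul]
    unfold genD
    have h1 : ∏ j with σ j = j ∧ ∀ b, g b ≠ j, Sum.elim (ν j) (fun _ => 0) (J j) =
        ∏ j, ∑ y, coef j y * val j y (J j) := by
      simp only [hsum]
      rw [Finset.prod_filter]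
    rw [h1, Finset.prod_univ_sum, Fintype.piFinset_univ, Finset.sum_mul, Finset.sum_mul]
    refine Finset.sum_congr rfl fun η _ => ?_
    rw [Finset.prod_mul_distrib]
    ring
  rw [hexp]
  refine Submodule.sum_mem _ fun η _ => ?_
  by_cases h0 : ∏ j, coef j (η j) = 0
  · rw [h0, zero_smul]
    exact Submodule.zero_mem _
  · refine Submodule.smul_mem _ _ (Submodule.subset_span ?_)
    have hne : ∀ j, coef j (η j) ≠ 0 := fun j hj => h0 (Finset.prod_eq_zero (Finset.mem_univ j) hj)
    have hfix : ∀ j, Fx j → ∃ b, η j = some b ∧ ν j b ≠ 0 := by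
      intro j hj
      have := hne j
      rcases hη : η j with _ | b
      · rw [hη] at this
        simp [coef, hj] at this
      · rw [hη] at this
        simp only [coef, hj, if_true] at this
        exact ⟨b, rfl, this⟩
    have hnfix : ∀ j, ¬ Fx j → η j = none := by
      intro j hj
      have := hne j
      rcases hη : η j with _ | b
      · rfl
      · rw [hη] at this
        simp [coef, hj] at this
    refine ⟨genD Q c d a σ (νη η) S g, ⟨σ, νη η, S, g, hσ, haσ, ?_, hg, hgσ, hga,
      fun J => rfl⟩, ?_⟩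
    · intro j b hb
      have hηb : η j = some b := by
        by_contra h
        exact hb (if_neg h)
      by_cases hj : Fx j
      · obtain ⟨b', hb', hν'⟩ := hfix j hj
        rw [hηb] at hb'
        obtain rfl := Option.some.inj hb'
        exact hν j b hν'
      · rw [hnfix j hj] at hηb
        exact absurd hηb (by simp)
    · funext J
      unfold genD
      rw [map_mul, map_mul, map_prod, map_prod, dt_map]
      congr 2
      · rw [Finset.prod_filter]
        refine Finset.prod_congr rfl fun j _ => ?_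
        by_cases hj : Fx j
        · rw [if_pos hj]
          obtain ⟨b, hb, _⟩ := hfix j hj
          simp only [νη, val, hb]
          rcases J j with x | x
          · by_cases hx : x = b
            · subst hx
              simp
            · have : ¬ b = x := fun h => hx h.symm
              simp [hx, this]
          · simp
        · rw [if_neg hj, hnfix j hj]
      · refine Finset.prod_congr rfl fun j _ => ?_
        by_cases h : Sum.elim d c (J j) = a j
        · rw [if_pos h, if_pos h]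
          rcases J j with x | x <;> rcases J (σ j) with y | y <;> simp
        · rw [if_neg h, if_neg h, map_zero]

theorem hdk (hmk : S_mk) (hdc : S_hdc) : S_hdk := by
  intro K _ ι n r s m c d a Q u hQ hu hun t hk hsupp
  have hud : u.det ≠ 0 := by
    intro h
    have := congrArg Matrix.det hun
    rw [Matrix.det_mul, h, mul_zero, Matrix.det_one] at this
    exact zero_ne_one this
  have huu : IsUnit u.det := isUnit_iff_ne_zero.2 hud
  have hu1 : u⁻¹ * u = 1 := Matrix.nonsing_inv_mul _ huu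
  have hu2 : u * u⁻¹ = 1 := Matrix.mul_nonsing_inv _ huu
  have hui : BD c u⁻¹ := Pool.Agent.W918.PG.bd_inv hu huu
  have huQ : uᵀ * Q.map ι = u⁻¹ := by
    calc uᵀ * Q.map ι = uᵀ * Q.map ι * (u * u⁻¹) := by rw [hu2, mul_one]
      _ = uᵀ * Q.map ι * u * u⁻¹ := by rw [← mul_assoc]
      _ = u⁻¹ := by rw [hun, one_mul]
  have hQe : Q.map ι = (u⁻¹)ᵀ * u⁻¹ := by
    calc Q.map ι = (u * u⁻¹)ᵀ * Q.map ι := by rw [hu2]; simp
      _ = (u⁻¹)ᵀ * (uᵀ * Q.map ι) := by rw [Matrix.transpose_mul, mul_assoc]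
      _ = (u⁻¹)ᵀ * u⁻¹ := by rw [huQ]
  have hQu : Q.map ι * u = (u⁻¹)ᵀ := by rw [hQe, mul_assoc, hu1, mul_one]
  set U : Matrix (Fin s ⊕ Fin n) (Fin s ⊕ Fin n) ℂ := fromBlocks 1 0 0 u with hU
  set V : Matrix (Fin s ⊕ Fin n) (Fin s ⊕ Fin n) ℂ := fromBlocks 1 0 0 u⁻¹ with hV
  have hUV : U * V = 1 := by
    rw [hU, hV, Matrix.fromBlocks_multiply]
    simp [hu2]
  set T : (Fin m → Fin s ⊕ Fin n) → ℂ := fun J => ι (t J) with hT
  -- the transported form
  have h1 : pull U T ∈ algD (1 : Matrix (Fin n) (Fin n) ℂ) c d a := by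
    have hsup : ∀ J, pull U T J ≠ 0 → ∃ K : Fin m → Fin s ⊕ Fin n, t K ≠ 0 ∧
        ∀ j, U (K j) (J j) ≠ 0 := by
      intro J hJ
      unfold pull at hJ
      obtain ⟨K, _, hK⟩ := Finset.exists_ne_zero_of_sum_ne_zero hJ
      refine ⟨K, ?_, ?_⟩
      · intro h0
        apply hK
        simp [hT, h0]
      · intro j h0
        apply hK
        rw [Finset.prod_eq_zero (Finset.mem_univ j) h0, zero_mul]
    refine hdc n r s m c d a (pull U T) ?_ ?_
    · intro Z hZ hbZ
      rw [act_pull U (fromBlocks 0 0 0 Z) (fromBlocks 0 0 0 (u * Z * u⁻¹)) (by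
        rw [hU, Matrix.fromBlocks_multiply, Matrix.fromBlocks_multiply]
        simp [mul_assoc, hu1]) T]
      rw [hk (u * Z * u⁻¹) ?_ ?_]
      · funext J
        simp [pull]
      · calc (u * Z * u⁻¹)ᵀ * Q.map ι + Q.map ι * (u * Z * u⁻¹)
            = (u⁻¹)ᵀ * Zᵀ * (uᵀ * Q.map ι) + (Q.map ι * u) * Z * u⁻¹ := by
              rw [Matrix.transpose_mul, Matrix.transpose_mul]
              simp only [mul_assoc]
          _ = 0 := by
              rw [huQ, hQu, hZ]
              simp
      · exact Pool.Agent.W918.PG.bd_mul (Pool.Agent.W918.PG.bd_mul hu hbZ) hui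
    · intro J hJ j
      obtain ⟨K, hK, hKJ⟩ := hsup J hJ
      rw [← (block_ne d hu (K j) (J j) (hKJ j)).1]
      exact hsupp K hK j
  -- back
  have h2 : T = pull V (pull U T) := by
    rw [← pull_mul, hUV, pull_one]
  apply hmk K ι (Fin m → Fin s ⊕ Fin n)
  change T ∈ _
  rw [h2]
  unfold algD at h1
  refine Submodule.span_induction (p := fun x _ => pull V x ∈ Submodule.span ℂ _) ?_ ?_ ?_ ?_ h1
  · rintro x ⟨σ, ν, S, g, hσ, haσ, hν, hg, hgσ, hga, hx⟩
    have hx' : x = genD (1 : Matrix (Fin n) (Fin n) ℂ) c d a σ ν S g := funext hx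
    rw [hx', hV, pull_genD d a hui σ hσ ν S g hg hgσ, ← hQe]
    exact Submodule.smul_mem _ _ (genD_mem ι Q c d a σ hσ haσ ν hν S g hg hgσ hga)
  · have : pull V (0 : (Fin m → Fin s ⊕ Fin n) → ℂ) = 0 := by
      funext J
      simp [pull]
    rw [this]
    exact Submodule.zero_mem _
  · intro x y _ _ hx hy
    have : pull V (x + y) = pull V x + pull V y := by
      funext J
      simp [pull, mul_add, Finset.sum_add_distrib]
    rw [this]
    exact Submodule.add_mem _ hx hy
  · intro z x _ hx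
    have : pull V (z • x) = z • pull V x := by
      funext J
      simp only [pull, Pi.smul_apply, smul_eq_mul, Finset.mul_sum]
      refine Finset.sum_congr rfl fun K _ => ?_
      ring
    rw [this]
    exact Submodule.smul_mem _ _ hx

end

end Pool.Agent.W125.FF.HDK
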